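import Pool.Agent.W744.BU.Stm

/-!
BU-COMP: compression along an injective map of index sets.
-/

set_option autoImplicit false

open Set Filter Topology Pool.Agent.W744.BU

namespace Pool.Agent.W238.BU.COMP

theorem inner_e {I : Type} (i : I) (x : L2 I) : inner ℂ (e i) x = x i := by
  classical
  have h := lp.inner_single_left (𝕜 := ℂ) (G := fun _ : I => ℂ) i (1 : ℂ) x
  unfold e
  convert h using 1
  simp

theorem entry_inner {I : Type} (a : Op I) (i j : I) : entry a i j = inner ℂ (e i) (a (e j)) := by
  rw [inner_e]; rfl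

theorem e_apply {I : Type} (i j : I) : (e i : L2 I) j = (open Classical in if j = i then 1 else 0) := by
  classical
  unfold e
  rw [lp.single_apply]
  by_cases h : j = i
  · subst h; simp
  · simp [h]

theorem orth {I : Type} : Orthonormal ℂ (fun i : I => (e i : L2 I)) := by
  classical
  rw [orthonormal_iff_ite]
  intro i j
  rw [inner_e, e_apply]

theorem orth' {J' J : Type} (ι : J' → J) (hι : Function.Injective ι) :
    Orthonormal ℂ (fun i : J' => (e (ι i) : L2 J)) :=
  orth.comp ι hι

/-- the isometry -/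
noncomputable def W {J' J : Type} (ι : J' → J) (hι : Function.Injective ι) : L2 J' →L[ℂ] L2 J :=
  (orth' ι hι).orthogonalFamily.linearIsometry.toContinuousLinearMap

theorem W_e {J' J : Type} (ι : J' → J) (hι : Function.Injective ι) (i : J') :
    W ι hι (e i) = e (ι i) := by
  classical
  have h := (orth' ι hι).orthogonalFamily.linearIsometry_apply_single (i := i) (1 : ℂ)
  unfold W
  rw [LinearIsometry.coe_toContinuousLinearMap]
  have h2 : (e i : L2 J') = lp.single 2 i (1 : ℂ) := by
    unfold e
    congr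
  rw [h2, h]
  simp

theorem W_norm {J' J : Type} (ι : J' → J) (hι : Function.Injective ι) : ‖W ι hι‖ ≤ 1 :=
  LinearIsometry.norm_toContinuousLinearMap_le _

theorem W_inner {J' J : Type} (ι : J' → J) (hι : Function.Injective ι) (x y : L2 J') :
    inner ℂ (W ι hι x) (W ι hι y) = inner ℂ x y :=
  (orth' ι hι).orthogonalFamily.linearIsometry.inner_map_map x y

/-- the adjoint -/
noncomputable def V {J' J : Type} (ι : J' → J) (hι : Function.Injective ι) : L2 J →L[ℂ] L2 J' :=
  ContinuousLinearMap.adjoint (W ι hι)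

theorem V_norm {J' J : Type} (ι : J' → J) (hι : Function.Injective ι) : ‖V ι hι‖ ≤ 1 := by
  unfold V
  rw [LinearIsometryEquiv.norm_map]
  exact W_norm ι hι

theorem VW {J' J : Type} (ι : J' → J) (hι : Function.Injective ι) (x : L2 J') :
    V ι hι (W ι hι x) = x := by
  apply ext_inner_left ℂ
  intro y
  unfold V
  rw [ContinuousLinearMap.adjoint_inner_right, W_inner]

theorem V_e {J' J : Type} (ι : J' → J) (hι : Function.Injective ι) (j : J) (hj : j ∉ range ι) :
    V ι hι (e j) = 0 := by
  classical
  ext i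
  rw [← inner_e]
  unfold V
  rw [ContinuousLinearMap.adjoint_inner_right, W_e, inner_e, e_apply]
  have h : ι i ≠ j := fun h => hj ⟨i, h⟩
  simp [h]

/-- the compression -/
noncomputable def cm {J' J : Type} (ι : J' → J) (hι : Function.Injective ι) (a : Op J) : Op J' :=
  (V ι hι).comp (a.comp (W ι hι))

theorem entry_cm {J' J : Type} (ι : J' → J) (hι : Function.Injective ι) (a : Op J) (i j : J') :
    entry (cm ι hι a) i j = entry a (ι i) (ι j) := by
  rw [entry_inner, entry_inner]
  show inner ℂ (e i) (V ι hι (a (W ι hι (e j)))) = _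
  unfold V
  rw [ContinuousLinearMap.adjoint_inner_right, W_e, W_e]

theorem entry_comp {J' J : Type} (ι : J' → J) (hι : Function.Injective ι) (a : Op J) (i j : J') :
    entry (comp ι a) i j = entry a (ι i) (ι j) := by
  have h : ∃ b : Op J', ∀ i j, entry b i j = entry a (ι i) (ι j) :=
    ⟨cm ι hι a, entry_cm ι hι a⟩
  unfold comp opOf
  rw [dif_pos h]
  exact h.choose_spec i j

theorem comp_eq (hE : S_ENT) {J' J : Type} (ι : J' → J) (hι : Function.Injective ι) (a : Op J) :
    comp ι a = cm ι hι a := by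
  apply hE.1
  intro i j
  rw [entry_comp ι hι, entry_cm]

/-- the projection -/
noncomputable def Pr {J' J : Type} (ι : J' → J) (hι : Function.Injective ι) : Op J :=
  (W ι hι).comp (V ι hι)

theorem Pr_star {J' J : Type} (ι : J' → J) (hι : Function.Injective ι) :
    star (Pr ι hι) = Pr ι hι := by
  rw [ContinuousLinearMap.star_eq_adjoint]
  unfold Pr V
  rw [ContinuousLinearMap.adjoint_comp, ContinuousLinearMap.adjoint_adjoint]

theorem Pr_e_in {J' J : Type} (ι : J' → J) (hι : Function.Injective ι) (i : J') :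
    Pr ι hι (e (ι i)) = e (ι i) := by
  show W ι hι (V ι hι (e (ι i))) = _
  rw [← W_e ι hι i, VW]

theorem Pr_e_out {J' J : Type} (ι : J' → J) (hι : Function.Injective ι) (j : J)
    (hj : j ∉ range ι) : Pr ι hι (e j) = 0 := by
  show W ι hι (V ι hι (e j)) = _
  rw [V_e ι hι j hj, map_zero]

theorem Pr_inner {J' J : Type} (ι : J' → J) (hι : Function.Injective ι) (x y : L2 J) :
    inner ℂ x (Pr ι hι y) = inner ℂ (Pr ι hι x) y := by
  show inner ℂ x (W ι hι (V ι hι y)) = inner ℂ (W ι hι (V ι hι x)) y
  rw [show W ι hι = ContinuousLinearMap.adjoint (V ι hι) by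
    unfold V; rw [ContinuousLinearMap.adjoint_adjoint]]
  rw [ContinuousLinearMap.adjoint_inner_right, ContinuousLinearMap.adjoint_inner_left]

theorem comm_iff (hE : S_ENT) {J' J : Type} (ι : J' → J) (hι : Function.Injective ι) (a : Op J) :
    Pr ι hι * a = a * Pr ι hι ↔ Red ι a := by
  constructor
  · intro h j i hj
    constructor
    · have h1 : entry (Pr ι hι * a) j (ι i) = entry (a * Pr ι hι) j (ι i) := by rw [h]
      rw [entry_inner, entry_inner] at h1
      have h2 : inner ℂ (e j) ((Pr ι hι * a) (e (ι i))) = 0 := by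
        show inner ℂ (e j) (Pr ι hι (a (e (ι i)))) = 0
        rw [Pr_inner, Pr_e_out ι hι j hj, inner_zero_left]
      have h3 : (a * Pr ι hι) (e (ι i)) = a (e (ι i)) := by
        show a (Pr ι hι (e (ι i))) = _
        rw [Pr_e_in]
      rw [h2, h3] at h1
      rw [entry_inner]
      exact h1.symm
    · have h1 : entry (Pr ι hι * a) (ι i) j = entry (a * Pr ι hι) (ι i) j := by rw [h]
      rw [entry_inner, entry_inner] at h1
      have h2 : inner ℂ (e (ι i)) ((Pr ι hι * a) (e j)) = inner ℂ (e (ι i)) (a (e j)) := by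
        show inner ℂ (e (ι i)) (Pr ι hι (a (e j))) = _
        rw [Pr_inner, Pr_e_in]
      have h3 : (a * Pr ι hι) (e j) = 0 := by
        show a (Pr ι hι (e j)) = _
        rw [Pr_e_out ι hι j hj, map_zero]
      rw [h2, h3, inner_zero_right] at h1
      rw [entry_inner]
      exact h1
  · intro h
    apply hE.1
    intro k l
    rw [entry_inner, entry_inner]
    show inner ℂ (e k) (Pr ι hι (a (e l))) = inner ℂ (e k) (a (Pr ι hι (e l)))
    rw [Pr_inner]
    by_cases hk : k ∈ range ι
    · obtain ⟨k', rfl⟩ := hk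
      rw [Pr_e_in]
      by_cases hl : l ∈ range ι
      · obtain ⟨l', rfl⟩ := hl
        rw [Pr_e_in]
      · rw [Pr_e_out ι hι l hl, map_zero, inner_zero_right, ← entry_inner]
        exact (h l k' hl).2
    · rw [Pr_e_out ι hι k hk, inner_zero_left]
      by_cases hl : l ∈ range ι
      · obtain ⟨l', rfl⟩ := hl
        rw [Pr_e_in, ← entry_inner]
        exact ((h k l' hk).1).symm
      · rw [Pr_e_out ι hι l hl, map_zero, inner_zero_right]

/-- the commutant -/
noncomputable def R {J' J : Type} (ι : J' → J) (hι : Function.Injective ι) :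
    StarSubalgebra ℂ (Op J) := StarSubalgebra.centralizer ℂ {Pr ι hι}

theorem mem_R (hE : S_ENT) {J' J : Type} (ι : J' → J) (hι : Function.Injective ι) (a : Op J) :
    a ∈ R ι hι ↔ Red ι a := by
  unfold R
  rw [StarSubalgebra.mem_centralizer_iff, ← comm_iff hE ι hι]
  constructor
  · intro h
    exact (h _ (mem_singleton _)).1
  · intro h g hg
    rw [mem_singleton_iff] at hg
    subst hg
    rw [Pr_star]
    exact ⟨h, h⟩

theorem comm_W {J' J : Type} (ι : J' → J) (hι : Function.Injective ι) (b : Op J)
    (hb : b ∈ R ι hι) (x : L2 J') : W ι hι (V ι hι (b (W ι hι x))) = b (W ι hι x) := by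
  unfold R at hb
  rw [StarSubalgebra.mem_centralizer_iff] at hb
  have h := (hb _ (mem_singleton _)).1
  have h1 : (Pr ι hι * b) (W ι hι x) = (b * Pr ι hι) (W ι hι x) := by rw [h]
  have h2 : (b * Pr ι hι) (W ι hι x) = b (W ι hι x) := by
    show b (W ι hι (V ι hι (W ι hι x))) = _
    rw [VW]
  rw [h2] at h1
  exact h1

/-- the homomorphism -/
noncomputable def C {J' J : Type} (ι : J' → J) (hι : Function.Injective ι) :
    R ι hι →⋆ₐ[ℂ] Op J' where
  toFun a := cm ι hι (a : Op J)
  map_one' := by
    ext1 x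
    show V ι hι (W ι hι x) = x
    exact VW ι hι x
  map_mul' := by
    intro a b
    ext1 x
    show V ι hι ((a : Op J) ((b : Op J) (W ι hι x))) =
      V ι hι ((a : Op J) (W ι hι (V ι hι ((b : Op J) (W ι hι x)))))
    rw [comm_W ι hι b b.2]
  map_zero' := by
    ext1 x
    show V ι hι 0 = 0
    exact map_zero _
  map_add' := by
    intro a b
    ext1 x
    show V ι hι ((a : Op J) (W ι hι x) + (b : Op J) (W ι hι x)) = _
    rw [map_add]
    rfl
  commutes' := by
    intro z
    ext1 x
    show V ι hι ((algebraMap ℂ (Op J) z) (W ι hι x)) = (algebraMap ℂ (Op J') z) x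
    rw [Algebra.algebraMap_eq_smul_one, Algebra.algebraMap_eq_smul_one]
    show V ι hι (z • (W ι hι x)) = z • x
    rw [map_smul, VW]
  map_star' := by
    intro a
    show cm ι hι (star (a : Op J)) = star (cm ι hι (a : Op J))
    rw [ContinuousLinearMap.star_eq_adjoint, ContinuousLinearMap.star_eq_adjoint]
    unfold cm V
    rw [ContinuousLinearMap.adjoint_comp, ContinuousLinearMap.adjoint_comp,
      ContinuousLinearMap.adjoint_adjoint]
    rfl

theorem main (hE : S_ENT) : S_COMP := by
  intro J' J ι hι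
  refine ⟨fun a i j => entry_comp ι hι a i j, ?_, R ι hι, ?_, mem_R hE ι hι, C ι hι, ?_⟩
  · intro a b
    rw [comp_eq hE ι hι, comp_eq hE ι hι]
    have h : cm ι hι a - cm ι hι b = (V ι hι).comp ((a - b).comp (W ι hι)) := by
      ext1 x
      show V ι hι (a (W ι hι x)) - V ι hι (b (W ι hι x)) = V ι hι ((a - b) (W ι hι x))
      rw [sub_apply, map_sub]
    rw [h]
    calc ‖(V ι hι).comp ((a - b).comp (W ι hι))‖ ≤ ‖V ι hι‖ * ‖(a - b).comp (W ι hι)‖ :=
          ContinuousLinearMap.opNorm_comp_le _ _
      _ ≤ 1 * (‖a - b‖ * ‖W ι hι‖) := by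
          apply mul_le_mul (V_norm ι hι) (ContinuousLinearMap.opNorm_comp_le _ _)
            (norm_nonneg _) zero_le_one
      _ ≤ 1 * (‖a - b‖ * 1) := by
          have := W_norm ι hι
          gcongr
      _ = ‖a - b‖ := by ring
  · unfold R
    rw [StarSubalgebra.coe_centralizer]
    exact Set.isClosed_centralizer _
  · intro a
    rw [comp_eq hE ι hι]
    rfl

end Pool.Agent.W238.BU.COMP
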